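import Pool.Agent.WT59.One

/-!
The rank function `uu r` of the union of two copies of a matroid and its dual `ud r E` (MP_e6151a_ag).

* `uu_rk`, `ud_rk`: rank functions.
* `two_iff`: `Two r Y ↔ uu r Y = |Y|`.
* `gd_iff`: good bases are the common bases of `r` and `ud r E`.
* `ud_exch`: for a good basis `T`, `x ∈ T`, `y ∉ T`: `T - x + y` is a basis of `ud` iff all tight sets containing `x` contain `y`.
-/

set_option autoImplicit false

namespace Pool.Agent.EX65

open Finset Pool.Agent.DT3 Pool.Agent.CF98 Pool.Agent.WT59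

variable {α : Type*} [DecidableEq α] {r : Finset α → ℕ} {E T A X Y G : Finset α} {f : ℕ} {x y : α}

/-- The rank function of the union of two copies of `r`. -/
def uu (r : Finset α → ℕ) (Y : Finset α) : ℕ :=
  Y.powerset.inf' ⟨∅, empty_mem_powerset Y⟩ (fun A => 2 * r A + (Y \ A).card)

theorem uu_le (r : Finset α → ℕ) (h : A ⊆ Y) : uu r Y ≤ 2 * r A + (Y \ A).card := by
  unfold uu
  exact Finset.inf'_le _ (mem_powerset.2 h)

theorem uu_ex (r : Finset α → ℕ) (Y : Finset α) : ∃ A ⊆ Y, uu r Y = 2 * r A + (Y \ A).card := by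
  obtain ⟨A, hA, h⟩ := Finset.exists_mem_eq_inf' (s := Y.powerset) ⟨∅, empty_mem_powerset Y⟩
    (fun A => 2 * r A + (Y \ A).card)
  exact ⟨A, mem_powerset.1 hA, h⟩

theorem uu_rk (h : RankFn r) : RankFn (uu r) := by
  refine ⟨?_, ?_, ?_, ?_⟩
  · have h1 := uu_le r (A := ∅) (Y := ∅) (Subset.refl _)
    rw [h.empty, sdiff_empty, card_empty] at h1
    omega
  · intro Y Y' hY
    obtain ⟨A, hA, h1⟩ := uu_ex r Y'
    have h2 := uu_le r (A := A ∩ Y) (Y := Y) inter_subset_right
    have h3 := h.mono (A ∩ Y) A inter_subset_left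
    have h4 : (Y \ (A ∩ Y)).card ≤ (Y' \ A).card := by
      apply card_le_card
      intro z hz
      rw [mem_sdiff] at hz ⊢
      exact ⟨hY hz.1, fun h5 => hz.2 (mem_inter.2 ⟨h5, hz.1⟩)⟩
    omega
  · intro z Y
    obtain ⟨A, hA, h1⟩ := uu_ex r Y
    have h2 := uu_le r (A := A) (Y := insert z Y) (hA.trans (subset_insert z Y))
    have h3 : (insert z Y \ A).card ≤ (Y \ A).card + 1 := by
      have h4 : insert z Y \ A ⊆ insert z (Y \ A) := by
        intro a ha
        simp only [mem_sdiff, mem_insert] at ha ⊢
        tauto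
      exact (card_le_card h4).trans (card_insert_le _ _)
    omega
  · intro X Y
    obtain ⟨A, hA, h1⟩ := uu_ex r X
    obtain ⟨B, hB, h2⟩ := uu_ex r Y
    have h3 := uu_le r (A := A ∪ B) (Y := X ∪ Y) (union_subset_union hA hB)
    have h4 := uu_le r (A := A ∩ B) (Y := X ∩ Y) (inter_subset_inter hA hB)
    have h5 := h.submod A B
    have h6 : ((X ∪ Y) \ (A ∪ B)).card + ((X ∩ Y) \ (A ∩ B)).card ≤ (X \ A).card + (Y \ B).card := by
      have e1 := card_union_add_card_inter (X \ A) (Y \ B)
      have e2 := card_union_add_card_inter ((X ∪ Y) \ (A ∪ B)) ((X ∩ Y) \ (A ∩ B))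
      have e3 : (X ∪ Y) \ (A ∪ B) ∪ (X ∩ Y) \ (A ∩ B) ⊆ X \ A ∪ Y \ B := by
        intro z hz
        have hzA : z ∈ A → z ∈ X := fun h => hA h
        have hzB : z ∈ B → z ∈ Y := fun h => hB h
        simp only [mem_union, mem_sdiff, mem_inter] at hz ⊢
        tauto
      have e4 : (X ∪ Y) \ (A ∪ B) ∩ ((X ∩ Y) \ (A ∩ B)) ⊆ X \ A ∩ (Y \ B) := by
        intro z hz
        simp only [mem_union, mem_sdiff, mem_inter] at hz ⊢
        tauto
      have e5 := card_le_card e3
      have e6 := card_le_card e4
      omega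
    omega

theorem two_iff (h : RankFn r) : Two r Y ↔ uu r Y = Y.card := by
  constructor
  · intro h2
    obtain ⟨A, hA, h1⟩ := uu_ex r Y
    have h3 := h2 A hA
    have h4 := card_sdiff_add_card_eq_card hA
    have h5 := uu_le r (A := ∅) (Y := Y) (empty_subset _)
    rw [h.empty, sdiff_empty] at h5
    omega
  · intro h1 X hX
    have h2 := uu_le r hX
    have h4 := card_sdiff_add_card_eq_card hX
    omega

theorem uu_le_card (h : RankFn r) (Y : Finset α) : uu r Y ≤ Y.card := by
  have h5 := uu_le r (A := ∅) (Y := Y) (empty_subset _)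
  rw [h.empty, sdiff_empty] at h5
  omega

/-- The dual of the union, on `E`. -/
def ud (r : Finset α → ℕ) (E X : Finset α) : ℕ := (X ∩ E).card + uu r (E \ X) - uu r E

theorem ud_rk (h : RankFn r) (E : Finset α) : RankFn (ud r E) := rk_dual (uu_rk h) E

theorem uu_E (hE : Env r E f) (hT : Gd r E f T) : uu r E = 2 * f := by
  have h1 := uu_le r (A := E) (Y := E) (Subset.refl _)
  rw [hE.rank, Finset.sdiff_self, card_empty] at h1
  have h2 := (uu_rk hE.rk).mono (E \ T) E sdiff_subset
  rw [(two_iff hE.rk).1 hT.2.2, card_sdiff_of_subset hT.1, hE.card, hT.2.1.1] at h2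
  omega

theorem ud_E (hE : Env r E f) (hT : Gd r E f T) : ud r E E = f := by
  unfold ud
  rw [inter_self, Finset.sdiff_self, uu_E hE hT, hE.card, (uu_rk hE.rk).empty]
  omega

/-- Good bases are common bases. -/
theorem gd_iff (hE : Env r E f) (hT : Gd r E f T) {S : Finset α} (hS : S ⊆ E) (hc : S.card = f) :
    Gd r E f S ↔ r S = f ∧ ud r E S = f := by
  have h1 := uu_E hE hT
  have h2 := uu_le_card hE.rk (E \ S)
  have h3 := card_sdiff_of_subset hS
  have h4 := hE.card
  have h5 : ud r E S = f ↔ Two r (E \ S) := by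
    rw [two_iff hE.rk]
    unfold ud
    rw [inter_eq_left.2 hS, h1]
    omega
  rw [h5]
  constructor
  · intro h
    exact ⟨h.2.1.2, h.2.2⟩
  · rintro ⟨h6, h7⟩
    exact ⟨hS, ⟨hc, h6⟩, h7⟩

theorem card_exch (hx : x ∈ T) (hy : y ∉ T) : (insert y (T.erase x)).card = T.card := by
  rw [card_insert_of_notMem (fun h => hy (mem_erase.1 h).2), card_erase_of_mem hx]
  have : 0 < T.card := card_pos.2 ⟨x, hx⟩
  omega

/-- Exchanges in the second matroid and tight sets. -/
theorem ud_exch (hE : Env r E f) (hT : Gd r E f T) (hx : x ∈ T) (hyE : y ∈ E) (hy : y ∉ T) :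
    ud r E (insert y (T.erase x)) = f ↔ ∀ G ⊆ E, sg r T G = 0 → x ∈ G → y ∈ G := by
  have hxy : x ≠ y := fun h => hy (h ▸ hx)
  set S := insert y (T.erase x) with hS
  have hSE : S ⊆ E := insert_subset hyE ((erase_subset _ _).trans hT.1)
  have hSc : S.card = f := by rw [hS, card_exch hx hy, hT.2.1.1]
  have h1 := uu_E hE hT
  have h2 := uu_le_card hE.rk (E \ S)
  have h3 := card_sdiff_of_subset hSE
  have h4 := hE.card
  have h5 : ud r E S = f ↔ Two r (E \ S) := by
    rw [two_iff hE.rk]
    unfold ud
    rw [inter_eq_left.2 hSE, h1]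
    omega
  have hcx : ∀ G : Finset α, ((G \ S).card : ℤ) + (if y ∈ G then 1 else 0) =
      (G \ T).card + (if x ∈ G then 1 else 0) := by
    intro G
    by_cases hxG : x ∈ G
    · rw [if_pos hxG]
      by_cases hyG : y ∈ G
      · rw [if_pos hyG]
        have e : G \ S = insert x ((G \ T).erase y) := by
          ext a
          simp only [hS, mem_sdiff, mem_insert, mem_erase]
          by_cases ha : a = x
          · subst ha
            simp [hxG, hxy]
          · by_cases hb : a = y
            · subst hb
              simp [ha]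
            · simp [ha, hb]
        rw [e, card_insert_of_notMem (by simp [hx]), card_erase_of_mem (mem_sdiff.2 ⟨hyG, hy⟩)]
        have : 0 < (G \ T).card := card_pos.2 ⟨y, mem_sdiff.2 ⟨hyG, hy⟩⟩
        omega
      · rw [if_neg hyG]
        have e : G \ S = insert x (G \ T) := by
          ext a
          simp only [hS, mem_sdiff, mem_insert, mem_erase]
          by_cases ha : a = x
          · subst ha
            simp [hxG, hxy]
          · by_cases hb : a = y
            · subst hb
              simp [ha, hyG]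
            · simp [ha, hb]
        rw [e, card_insert_of_notMem (by simp [hx])]
        push_cast
        ring
    · rw [if_neg hxG]
      by_cases hyG : y ∈ G
      · rw [if_pos hyG]
        have e : G \ S = (G \ T).erase y := by
          ext a
          simp only [hS, mem_sdiff, mem_insert, mem_erase]
          by_cases ha : a = x
          · subst ha
            simp [hxG]
          · by_cases hb : a = y
            · subst hb
              simp
            · simp [ha, hb]
        rw [e, card_erase_of_mem (mem_sdiff.2 ⟨hyG, hy⟩)]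
        have : 0 < (G \ T).card := card_pos.2 ⟨y, mem_sdiff.2 ⟨hyG, hy⟩⟩
        omega
      · rw [if_neg hyG]
        have e : G \ S = G \ T := by
          ext a
          simp only [hS, mem_sdiff, mem_insert, mem_erase]
          by_cases ha : a = x
          · subst ha
            simp [hxG]
          · by_cases hb : a = y
            · subst hb
              simp [hyG]
            · simp [ha, hb]
        rw [e]
  rw [h5]
  constructor
  · intro h6 G hG h7 hxG
    by_contra hyG
    have h8 := sg_nonneg hE.rk h6 G hG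
    have h9 := hcx G
    rw [if_pos hxG, if_neg hyG] at h9
    unfold sg at h7 h8
    omega
  · intro h6
    apply two_of_sg
    intro G hG
    have h7 := sg_nonneg hE.rk hT.2.2 G hG
    have h8 := h6 G hG
    have h9 := hcx G
    unfold sg at h7 h8 ⊢
    by_cases hxG : x ∈ G
    · rw [if_pos hxG] at h9
      by_cases hyG : y ∈ G
      · rw [if_pos hyG] at h9
        omega
      · rw [if_neg hyG] at h9
        have h10 : ¬ (2 * (r G : ℤ) - ((G \ T).card : ℤ) = 0) := fun h => hyG (h8 h hxG)
        omega
    · rw [if_neg hxG] at h9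
      split_ifs at h9 <;> omega

end Pool.Agent.EX65
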