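import Pool.Agent.EX65.Cyc
import Pool.Agent.EX65.Un

/-!
Exact matching of a closest pair (MP_e6151a_ag, notes 2836, 2840, 2856, 2925).

`T₀`, `T₁` good bases of different colours with `k = |T₀ \ T₁|` minimal.  Then `T₀ \ T₁ = {x 0, ..., x (k-1)}`,
`T₁ \ T₀ = {y 0, ..., y (k-1)}`, the exchange digraph is a single cycle: in `N` the element `y j` is parallel to `x (j+1)` over
`T₀ ∩ T₁`, and in the dual of `N ∨ N` to `x j`.  In terms of tight sets: the largest `T₀`-tight set `H j` without `y j` is the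
largest `T₁`-tight set without `x j`; it contains all `x i`, `y i` with `i ≠ j`.
-/

set_option autoImplicit false

namespace Pool.Agent.EX65

open Finset Pool.Agent.DT3 Pool.Agent.CF98 Pool.Agent.WT59

variable {α : Type*} [DecidableEq α] {r m : Finset α → ℕ} {E B S T T₀ T₁ G : Finset α} {f k : ℕ}
  {u v : α} {Q : Finset α → Prop}

/-- Removing elements which are not in the fundamental circuit of `v`. -/
theorem clo_sdiff (h : RankFn m) (hB : m B = B.card) (hsp : m (insert v B) = m B) (hS : S ⊆ B)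
    (hno : ∀ x ∈ S, m (insert v (B.erase x)) ≠ m B) : m (insert v (B \ S)) = m (B \ S) := by
  induction S using Finset.induction_on with
  | empty =>
    rw [sdiff_empty]
    exact hsp
  | insert s S hs ih =>
    have ih' := ih (fun a ha => hS (mem_insert_of_mem ha)) (fun a ha => hno a (mem_insert_of_mem ha))
    have hsB : s ∈ B := hS (mem_insert_self s S)
    have h1 := hno s (mem_insert_self s S)
    have h2 := h.insert_le v (B.erase s)
    have h3 := h.mono (B.erase s) (insert v (B.erase s)) (subset_insert _ _)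
    have h4 := ind_sub h hB (erase_subset s B)
    have h5 := card_erase_of_mem hsB
    have h6 : 0 < B.card := card_pos.2 ⟨s, hsB⟩
    have e : B \ insert s S = (B \ S).erase s := by
      ext a
      simp only [mem_sdiff, mem_insert, mem_erase, not_or]
      tauto
    have hsS : s ∈ B \ S := mem_sdiff.2 ⟨hsB, hs⟩
    have s1 := h.submod (insert v (B \ S)) (insert v (B.erase s))
    have e1 : insert v (B \ S) ∪ insert v (B.erase s) = insert v B := by
      ext a
      simp only [mem_union, mem_insert, mem_sdiff, mem_erase]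
      constructor
      · rintro ((h1 | h1) | (h1 | h1))
        · exact Or.inl h1
        · exact Or.inr h1.1
        · exact Or.inl h1
        · exact Or.inr h1.2
      · rintro (h1 | h1)
        · exact Or.inl (Or.inl h1)
        · by_cases h2 : a = s
          · subst h2
            exact Or.inl (Or.inr ⟨hsB, hs⟩)
          · exact Or.inr (Or.inr ⟨h2, h1⟩)
    have e2 : insert v ((B \ S).erase s) ⊆ insert v (B \ S) ∩ insert v (B.erase s) := by
      intro a ha
      simp only [mem_inter, mem_insert, mem_sdiff, mem_erase] at ha ⊢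
      rcases ha with h1 | h1
      · exact ⟨Or.inl h1, Or.inl h1⟩
      · exact ⟨Or.inr h1.2, Or.inr ⟨h1.1, h1.2.1⟩⟩
    rw [e1] at s1
    have s2 := h.mono _ _ e2
    have s3 := h.mono _ _ (subset_insert v ((B \ S).erase s))
    have s4 := ind_sub h hB (show (B \ S).erase s ⊆ B from (erase_subset _ _).trans sdiff_subset)
    have s5 := card_erase_of_mem hsS
    have s6 := ind_sub h hB (show B \ S ⊆ B from sdiff_subset)
    have s7 : 0 < (B \ S).card := card_pos.2 ⟨s, hsS⟩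
    rw [e]
    omega

/-- Two bases. -/
structure TB (m : Finset α → ℕ) (f : ℕ) (T₀ T₁ : Finset α) : Prop where
  c0 : T₀.card = f
  c1 : T₁.card = f
  r0 : m T₀ = f
  r1 : m T₁ = f
  un : m (T₀ ∪ T₁) = f

theorem TB.symm (h : TB m f T₀ T₁) : TB m f T₁ T₀ := ⟨h.c1, h.c0, h.r1, h.r0, by rw [union_comm]; exact h.un⟩

theorem TB.sp (h : TB m f T₀ T₁) (hm : RankFn m) (hv : v ∈ T₁) : m (insert v T₀) = f := by
  have h1 := hm.mono T₀ (insert v T₀) (subset_insert _ _)
  have h2 := hm.mono (insert v T₀) (T₀ ∪ T₁) (insert_subset (mem_union_right _ hv) subset_union_left)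
  have := h.r0
  have := h.un
  omega

theorem TB.out1 (h : TB m f T₀ T₁) (hm : RankFn m) (hv : v ∈ T₁ \ T₀) :
    ∃ x ∈ T₀ \ T₁, m (insert v (T₀.erase x)) = f := by
  by_contra hno
  push Not at hno
  have hv' := mem_sdiff.1 hv
  have h1 := clo_sdiff hm (h.r0.trans h.c0.symm) (by rw [h.sp hm hv'.1, h.r0]) (sdiff_subset (s := T₀) (t := T₁))
    (fun x hx => by rw [h.r0]; exact hno x hx)
  rw [sdiff_sdiff_right_self] at h1
  have h2 : insert v (T₀ ⊓ T₁) ⊆ T₁ := insert_subset hv'.1 inter_subset_right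
  have h3 := ind_sub hm (h.r1.trans h.c1.symm) h2
  have h4 := ind_sub hm (h.r0.trans h.c0.symm) (inter_subset_left : T₀ ∩ T₁ ⊆ T₀)
  have h5 : (insert v (T₀ ⊓ T₁)).card = (T₀ ∩ T₁).card + 1 := by
    rw [card_insert_of_notMem]
    · rfl
    · intro h6
      exact hv'.2 (mem_inter.1 h6).1
  have h6 : m (T₀ ⊓ T₁) = m (T₀ ∩ T₁) := rfl
  omega

theorem TB.out2 (h : TB m f T₀ T₁) (hm : RankFn m) (hu : u ∈ T₀ \ T₁) :
    ∃ y ∈ T₁ \ T₀, m (insert y (T₀.erase u)) = f := by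
  by_contra hno
  push Not at hno
  have hu' := mem_sdiff.1 hu
  have h4 := ind_sub hm (h.r0.trans h.c0.symm) (erase_subset u T₀)
  have h5 := card_erase_of_mem hu'.1
  have h6 : 0 < T₀.card := card_pos.2 ⟨u, hu'.1⟩
  have h7 := h.c0
  have h1 : ∀ y ∈ T₁, m (insert y (T₀.erase u)) = m (T₀.erase u) := by
    intro y hy
    by_cases hy0 : y ∈ T₀
    · have hne : y ≠ u := by
        rintro rfl
        exact hu'.2 hy
      rw [insert_eq_self.2 (mem_erase.2 ⟨hne, hy0⟩)]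
    · have h2 := hno y (mem_sdiff.2 ⟨hy, hy0⟩)
      rcases hm.insert_eq y (T₀.erase u) with h3 | h3
      · exact h3
      · omega
  have h2 := rk_union_eq hm h1
  have h3 := hm.mono T₁ (T₀.erase u ∪ T₁) subset_union_right
  have := h.r1
  omega

/-- A matched pair is parallel over `T₀ ∩ T₁`. -/
theorem TB.par (h : TB m f T₀ T₁) (hm : RankFn m) (hu : u ∈ T₀ \ T₁) (hv : v ∈ T₁ \ T₀)
    (hno : ∀ x ∈ T₀ \ T₁, x ≠ u → m (insert v (T₀.erase x)) ≠ f) :
    m (insert v (insert u (T₀ ∩ T₁))) = m (insert u (T₀ ∩ T₁)) := by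
  have hu' := mem_sdiff.1 hu
  have hv' := mem_sdiff.1 hv
  have h1 := clo_sdiff hm (h.r0.trans h.c0.symm) (by rw [h.sp hm hv'.1, h.r0])
    (S := (T₀ \ T₁).erase u) ((erase_subset _ _).trans sdiff_subset)
    (fun x hx => by rw [h.r0]; exact hno x (mem_erase.1 hx).2 (mem_erase.1 hx).1)
  have e : T₀ \ (T₀ \ T₁).erase u = insert u (T₀ ∩ T₁) := by
    ext a
    simp only [mem_sdiff, mem_erase, mem_insert, mem_inter]
    constructor
    · rintro ⟨h2, h3⟩
      by_cases h4 : a = u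
      · exact Or.inl h4
      · right
        refine ⟨h2, ?_⟩
        by_contra h5
        exact h3 ⟨h4, h2, h5⟩
    · rintro (h2 | h2)
      · subst h2
        exact ⟨hu'.1, fun h3 => h3.1 rfl⟩
      · exact ⟨h2.1, fun h3 => h3.2.2 h2.2⟩
  rw [e] at h1
  exact h1

/-- Matched pairs are matched for `T₁` as well. -/
theorem TB.swap (h : TB m f T₀ T₁) (hm : RankFn m) (hu : u ∈ T₀ \ T₁) (hv : v ∈ T₁ \ T₀)
    (hp : m (insert v (insert u (T₀ ∩ T₁))) = m (insert u (T₀ ∩ T₁))) :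
    m (insert u (T₁.erase v)) = f := by
  have hu' := mem_sdiff.1 hu
  have hv' := mem_sdiff.1 hv
  have h1 : insert u (T₀ ∩ T₁) ⊆ insert u (T₁.erase v) := by
    apply insert_subset_insert
    intro a ha
    have ha' := mem_inter.1 ha
    exact mem_erase.2 ⟨fun e => hv'.2 (e ▸ ha'.1), ha'.2⟩
  have h2 := hm.mono_insert hp h1
  rw [insert_comm, insert_erase hv'.1] at h2
  have h3 := hm.mono T₁ (insert u T₁) (subset_insert _ _)
  have h4 := h.symm.sp hm hu'.1
  omega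

/-- If `u` is matched to another element than `v`, then `T₁ - v + u` is not a basis. -/
theorem TB.swap_ne (h : TB m f T₀ T₁) (hm : RankFn m) {w : α} (hu : u ∈ T₀ \ T₁) (hv : v ∈ T₁ \ T₀)
    (hw : w ∈ T₁ \ T₀) (hwv : w ≠ v)
    (hp : m (insert w (insert u (T₀ ∩ T₁))) = m (insert u (T₀ ∩ T₁))) :
    m (insert u (T₁.erase v)) ≠ f := by
  have hu' := mem_sdiff.1 hu
  have hv' := mem_sdiff.1 hv
  have hw' := mem_sdiff.1 hw
  intro h0
  -- `u` is in the closure of `insert w (T₀ ∩ T₁)`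
  have i1 := ind_sub hm (h.r1.trans h.c1.symm) (insert_subset hw'.1 (inter_subset_right : T₀ ∩ T₁ ⊆ T₁))
  have i2 := ind_sub hm (h.r0.trans h.c0.symm) (insert_subset hu'.1 (inter_subset_left : T₀ ∩ T₁ ⊆ T₀))
  rw [card_insert_of_notMem (fun h => hw'.2 (mem_inter.1 h).1)] at i1
  rw [card_insert_of_notMem (fun h => hu'.2 (mem_inter.1 h).2)] at i2
  have h1 : m (insert u (insert w (T₀ ∩ T₁))) = m (insert w (T₀ ∩ T₁)) := by
    rw [insert_comm, hp]
    omega
  have h2 : insert w (T₀ ∩ T₁) ⊆ T₁.erase v := by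
    intro a ha
    rcases mem_insert.1 ha with h3 | h3
    · exact mem_erase.2 ⟨h3 ▸ hwv, h3 ▸ hw'.1⟩
    · have ha' := mem_inter.1 h3
      exact mem_erase.2 ⟨fun e => hv'.2 (e ▸ ha'.1), ha'.2⟩
  have h3 := hm.mono_insert h1 h2
  have h4 := ind_sub hm (h.r1.trans h.c1.symm) (erase_subset v T₁)
  have h5 := card_erase_of_mem hv'.1
  have h6 : 0 < T₁.card := card_pos.2 ⟨v, hv'.1⟩
  have := h.c1
  omega

/-- The exact matching of a closest pair. -/
structure EM (r : Finset α → ℕ) (E : Finset α) (f : ℕ) (T0 T1 : Finset α) (m c : α → α)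
    (H : α → Finset α) : Prop where
  mp : ∀ y ∈ T1 \ T0, m y ∈ T0 \ T1
  cp : ∀ y ∈ T1 \ T0, c y ∈ T0 \ T1
  mi : Set.InjOn m (T1 \ T0 : Finset α)
  ci : Set.InjOn c (T1 \ T0 : Finset α)
  hE : ∀ y ∈ T1 \ T0, H y ⊆ E
  t0 : ∀ y ∈ T1 \ T0, sg r T0 (H y) = 0
  t1 : ∀ y ∈ T1 \ T0, sg r T1 (H y) = 0
  n0 : ∀ y ∈ T1 \ T0, y ∉ H y
  n1 : ∀ y ∈ T1 \ T0, m y ∉ H y
  x0 : ∀ y ∈ T1 \ T0, ∀ X ⊆ E, sg r T0 X = 0 → y ∉ X → X ⊆ H y
  x1 : ∀ y ∈ T1 \ T0, ∀ X ⊆ E, sg r T1 X = 0 → m y ∉ X → X ⊆ H y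
  in0 : ∀ y ∈ T1 \ T0, (T0 \ T1).erase (m y) ⊆ H y
  in1 : ∀ y ∈ T1 \ T0, (T1 \ T0).erase y ⊆ H y
  c0 : ∀ y ∈ T1 \ T0, ∀ x ∈ T0 \ T1, r (insert y (T0.erase x)) = f ↔ x = c y
  c1 : ∀ y ∈ T1 \ T0, ∀ x ∈ T0 \ T1, r (insert x (T1.erase y)) = f ↔ x = c y
  ne : 2 ≤ (T0 \ T1).card → ∀ y ∈ T1 \ T0, c y ≠ m y

theorem card_X {T0 T1 : Finset α} (h0 : T0.card = f) (h1 : T1.card = f) :
    (T0 \ T1).card = (T1 \ T0).card := by
  have e1 := card_sdiff_add_card_inter T0 T1
  have e2 := card_sdiff_add_card_inter T1 T0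
  rw [inter_comm] at e2
  omega

/-- Matchings from the exchange cycle. -/
theorem match_of (hE : Env r E f) {T0 T1 : Finset α} (h0 : Gd r E f T0) (h1 : Gd r E f T1) (q0 : Q T0)
    (q1 : ¬ Q T1)
    (hmin : ∀ T T', Gd r E f T → Gd r E f T' → Q T → ¬ Q T' → (T0 \ T1).card ≤ (T \ T').card) :
    (∀ y ∈ T1 \ T0, ∃ x ∈ T0 \ T1, r (insert y (T0.erase x)) = f) ∧
    (∀ y ∈ T1 \ T0, ∃ x ∈ T0 \ T1, ud r E (insert y (T0.erase x)) = f) ∧
    (∀ y ∈ T1 \ T0, ∀ y' ∈ T1 \ T0, ∀ x ∈ T0 \ T1, ∀ x' ∈ T0 \ T1, r (insert y (T0.erase x)) = f →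
      r (insert y' (T0.erase x')) = f → (x = x' ↔ y = y')) ∧
    (∀ y ∈ T1 \ T0, ∀ y' ∈ T1 \ T0, ∀ x ∈ T0 \ T1, ∀ x' ∈ T0 \ T1, ud r E (insert y (T0.erase x)) = f →
      ud r E (insert y' (T0.erase x')) = f → (x = x' ↔ y = y')) ∧
    (2 ≤ (T0 \ T1).card → ∀ y ∈ T1 \ T0, ∀ x ∈ T0 \ T1, r (insert y (T0.erase x)) = f →
      ud r E (insert y (T0.erase x)) = f → False) := by
  classical
  have hr := hE.rk
  have hu := ud_rk hr E
  have g0 := (gd_iff hE h0 h0.1 h0.2.1.1).1 h0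
  have g1 := (gd_iff hE h0 h1.1 h1.2.1.1).1 h1
  have hun : T0 ∪ T1 ⊆ E := union_subset h0.1 h1.1
  have B1 : TB r f T0 T1 := ⟨h0.2.1.1, h1.2.1.1, g0.1, g1.1, by
    have a1 := hr.mono T0 (T0 ∪ T1) subset_union_left
    have a2 := hr.mono (T0 ∪ T1) E hun
    have := hE.rank
    have := g0.1
    omega⟩
  have B2 : TB (ud r E) f T0 T1 := ⟨h0.2.1.1, h1.2.1.1, g0.2, g1.2, by
    have a1 := hu.mono T0 (T0 ∪ T1) subset_union_left
    have a2 := hu.mono (T0 ∪ T1) E hun
    have := ud_E hE h0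
    have := g0.2
    omega⟩
  have cXY := card_X (f := f) h0.2.1.1 h1.2.1.1
  have hYne : (T1 \ T0).Nonempty := by
    rw [← card_pos]
    by_contra hno
    have e1 : (T1 \ T0).card = 0 := by omega
    rw [card_eq_zero, sdiff_eq_empty_iff_subset] at e1
    have e2 : T1 = T0 := eq_of_subset_of_card_le e1 (by rw [h0.2.1.1, h1.2.1.1])
    exact q1 (e2 ▸ q0)
  obtain ⟨k, x, y, hC, jx, jy, ix, iy, J3, J4⟩ := exact_cyc (f := f) (T := T0) (X := T0 \ T1) (Y := T1 \ T0)
    hr hu h0.2.1.1 g0.1 g0.2 sdiff_subset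
    (fun v hv => B1.sp hr (mem_sdiff.1 hv).1) (fun v hv => B2.sp hu (mem_sdiff.1 hv).1)
    (fun v hv => B1.out1 hr hv) (fun u hu' => B2.out2 hu hu') hYne (by
      intro X' hX' Y' hY' hne hcard R1 R2
      have hXp : 0 < X'.card := hne.card_pos
      have hdisj : Disjoint (T0 \ X') Y' := by
        rw [disjoint_left]
        intro a ha ha'
        exact (mem_sdiff.1 (hY' ha')).2 (mem_sdiff.1 ha).1
      have hTE : (T0 \ X') ∪ Y' ⊆ E := union_subset (sdiff_subset.trans h0.1)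
        (hY'.trans (sdiff_subset.trans h1.1))
      have hXT : X' ⊆ T0 := hX'.trans sdiff_subset
      have hTc : ((T0 \ X') ∪ Y').card = f := by
        rw [card_union_of_disjoint hdisj]
        have e1 := card_sdiff_add_card_eq_card hXT
        have := h0.2.1.1
        omega
      have hg := (gd_iff hE h0 hTE hTc).2 ⟨R1, R2⟩
      have d1 : T0 \ ((T0 \ X') ∪ Y') = X' := by
        ext a
        have hh : a ∈ X' → a ∈ T0 := fun h => hXT h
        have hh' : a ∈ Y' → a ∉ T0 := fun h => (mem_sdiff.1 (hY' h)).2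
        simp only [mem_sdiff, mem_union]
        tauto
      have d2 : ((T0 \ X') ∪ Y') \ T1 = (T0 \ T1) \ X' := by
        ext a
        have hh' : a ∈ Y' → a ∈ T1 := fun h => (mem_sdiff.1 (hY' h)).1
        simp only [mem_sdiff, mem_union]
        tauto
      by_cases hq : Q ((T0 \ X') ∪ Y')
      · exfalso
        have e1 := hmin _ _ hg h1 hq q1
        rw [d2] at e1
        have e2 := card_sdiff_add_card_eq_card hX'
        omega
      · have e1 := hmin _ _ h0 hg q0 hq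
        rw [d1] at e1
        have e2 := eq_of_subset_of_card_le hX' e1
        exact ⟨e2, eq_of_subset_of_card_le hY' (by rw [← cXY, ← hcard]; exact e1)⟩)
  have hk := hC.pos
  have ex_i : ∀ v ∈ T1 \ T0, ∃ i < k, y i = v := by
    intro v hv
    rw [← iy] at hv
    obtain ⟨i, hi, rfl⟩ := mem_image.1 hv
    exact ⟨i, mem_range.1 hi, rfl⟩
  have ex_j : ∀ u ∈ T0 \ T1, ∃ i < k, x i = u := by
    intro u hu
    rw [← ix] at hu
    obtain ⟨i, hi, rfl⟩ := mem_image.1 hu
    exact ⟨i, mem_range.1 hi, rfl⟩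
  refine ⟨fun v hv => B1.out1 hr hv, fun v hv => B2.out1 hu hv, ?_, ?_, ?_⟩
  · intro v hv v' hv' u hu u' hu' e e'
    obtain ⟨i, hi, rfl⟩ := ex_i v hv
    obtain ⟨i', hi', rfl⟩ := ex_i v' hv'
    obtain ⟨j, hj, rfl⟩ := ex_j u hu
    obtain ⟨j', hj', rfl⟩ := ex_j u' hu'
    have a1 := J3 j hj i hi e
    have a2 := J3 j' hj' i' hi' e'
    subst a1 a2
    exact ⟨fun h => by rw [jx _ hj _ hj' h], fun h => by rw [jy _ hi _ hi' h]⟩
  · intro v hv v' hv' u hu u' hu' e e'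
    obtain ⟨i, hi, rfl⟩ := ex_i v hv
    obtain ⟨i', hi', rfl⟩ := ex_i v' hv'
    obtain ⟨j, hj, rfl⟩ := ex_j u hu
    obtain ⟨j', hj', rfl⟩ := ex_j u' hu'
    have a1 := J4 j hj i hi e
    have a2 := J4 j' hj' i' hi' e'
    constructor
    · intro h
      rw [a1, a2, jx _ hj _ hj' h]
    · intro h
      have a3 := jy _ hi _ hi' h
      rw [a1, a2] at a3
      have a4 : j = j' := by
        have hjm := Nat.mod_eq_of_lt hj
        have hjm' := Nat.mod_eq_of_lt hj'
        rcases mod_succ (t := j) (L := k) hk with ⟨b1, b2⟩ | ⟨b1, b2⟩ <;>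
        rcases mod_succ (t := j') (L := k) hk with ⟨b3, b4⟩ | ⟨b3, b4⟩ <;>
        omega
      rw [a4]
  · intro h2 v hv u hu e e'
    obtain ⟨i, hi, rfl⟩ := ex_i v hv
    obtain ⟨j, hj, rfl⟩ := ex_j u hu
    have a1 := J3 j hj i hi e
    have a2 := J4 j hj i hi e'
    subst a1
    have hkc : k = (T0 \ T1).card := by
      rw [← ix, card_image_of_injOn, card_range]
      intro a ha b hb hab
      exact jx a (mem_range.1 ha) b (mem_range.1 hb) hab
    have hjm := Nat.mod_eq_of_lt hj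
    rcases mod_succ (t := j) (L := k) hk with ⟨b1, b2⟩ | ⟨b1, b2⟩ <;> omega

theorem em (hE : Env r E f) {T0 T1 : Finset α} (h0 : Gd r E f T0) (h1 : Gd r E f T1) (q0 : Q T0)
    (q1 : ¬ Q T1)
    (hmin : ∀ T T', Gd r E f T → Gd r E f T' → Q T → ¬ Q T' → (T0 \ T1).card ≤ (T \ T').card) :
    ∃ m c H, EM r E f T0 T1 m c H := by
  classical
  obtain ⟨e1, e2, u1, u2, u3⟩ := match_of hE h0 h1 q0 q1 hmin
  have hr := hE.rk
  have hu := ud_rk hr E
  have g0 := (gd_iff hE h0 h0.1 h0.2.1.1).1 h0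
  have g1 := (gd_iff hE h0 h1.1 h1.2.1.1).1 h1
  have hun : T0 ∪ T1 ⊆ E := union_subset h0.1 h1.1
  have B1 : TB r f T0 T1 := ⟨h0.2.1.1, h1.2.1.1, g0.1, g1.1, by
    have a1 := hr.mono T0 (T0 ∪ T1) subset_union_left
    have a2 := hr.mono (T0 ∪ T1) E hun
    have := hE.rank
    have := g0.1
    omega⟩
  have B2 : TB (ud r E) f T0 T1 := ⟨h0.2.1.1, h1.2.1.1, g0.2, g1.2, by
    have a1 := hu.mono T0 (T0 ∪ T1) subset_union_left
    have a2 := hu.mono (T0 ∪ T1) E hun
    have := ud_E hE h0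
    have := g0.2
    omega⟩
  have cXY := card_X (f := f) h0.2.1.1 h1.2.1.1
  let c : α → α := fun v => if hv : v ∈ T1 \ T0 then (e1 v hv).choose else v
  let m : α → α := fun v => if hv : v ∈ T1 \ T0 then (e2 v hv).choose else v
  have hc : ∀ v ∈ T1 \ T0, c v ∈ T0 \ T1 ∧ r (insert v (T0.erase (c v))) = f := by
    intro v hv
    have := (e1 v hv).choose_spec
    simp only [c, dif_pos hv]
    exact this
  have hm : ∀ v ∈ T1 \ T0, m v ∈ T0 \ T1 ∧ ud r E (insert v (T0.erase (m v))) = f := by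
    intro v hv
    have := (e2 v hv).choose_spec
    simp only [m, dif_pos hv]
    exact this
  have hcu : ∀ v ∈ T1 \ T0, ∀ u ∈ T0 \ T1, (r (insert v (T0.erase u)) = f ↔ u = c v) := by
    intro v hv u hu
    constructor
    · intro h
      exact (u1 v hv v hv u hu (c v) (hc v hv).1 h (hc v hv).2).2 rfl
    · rintro rfl
      exact (hc v hv).2
  have hmu : ∀ v ∈ T1 \ T0, ∀ u ∈ T0 \ T1, (ud r E (insert v (T0.erase u)) = f ↔ u = m v) := by
    intro v hv u hu
    constructor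
    · intro h
      exact (u2 v hv v hv u hu (m v) (hm v hv).1 h (hm v hv).2).2 rfl
    · rintro rfl
      exact (hm v hv).2
  have hmi : ∀ v ∈ T1 \ T0, ∀ v' ∈ T1 \ T0, m v = m v' → v = v' := fun v hv v' hv' h =>
    (u2 v hv v' hv' (m v) (hm v hv).1 (m v') (hm v' hv').1 (hm v hv).2 (hm v' hv').2).1 h
  have hci : ∀ v ∈ T1 \ T0, ∀ v' ∈ T1 \ T0, c v = c v' → v = v' := fun v hv v' hv' h =>
    (u1 v hv v' hv' (c v) (hc v hv).1 (c v') (hc v' hv').1 (hc v hv).2 (hc v' hv').2).1 h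
  -- the tight sets
  choose H hH using fun v => exTG hE h0 v
  -- exchange and tight sets
  have ex0 : ∀ v ∈ T1 \ T0, ∀ u ∈ T0 \ T1, (u = m v ↔ ∀ G ⊆ E, sg r T0 G = 0 → u ∈ G → v ∈ G) := by
    intro v hv u hu
    have hv' := mem_sdiff.1 hv
    have hu' := mem_sdiff.1 hu
    rw [← hmu v hv u hu]
    exact ud_exch hE h0 hu'.1 (h1.1 hv'.1) hv'.2
  have n1 : ∀ v ∈ T1 \ T0, m v ∉ H v := by
    intro v hv h
    exact (hH v).nin ((ex0 v hv (m v) (hm v hv).1).1 rfl (H v) (hH v).sub (hH v).ti h)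
  have in0 : ∀ v ∈ T1 \ T0, ∀ u ∈ T0 \ T1, u ≠ m v → u ∈ H v := by
    intro v hv u hu hne
    have h3 : ¬ ∀ G ⊆ E, sg r T0 G = 0 → u ∈ G → v ∈ G := fun h => hne ((ex0 v hv u hu).2 h)
    push Not at h3
    obtain ⟨G, hG1, hG2, hG3, hG4⟩ := h3
    exact (hH v).max G hG1 hG2 hG4 hG3
  have in1 : ∀ v ∈ T1 \ T0, ∀ v' ∈ T1 \ T0, v' ≠ v → v' ∈ H v := by
    intro v hv v' hv' hne
    have h3 := in0 v hv (m v') (hm v' hv').1 (fun h => hne (hmi v' hv' v hv h))
    exact (ex0 v' hv' (m v') (hm v' hv').1).1 rfl (H v) (hH v).sub (hH v).ti h3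
  -- counting
  have cnt : ∀ v ∈ T1 \ T0, ∀ G : Finset α, m v ∉ G → v ∉ G → (∀ u ∈ T0 \ T1, u ≠ m v → u ∈ G) →
      (∀ v' ∈ T1 \ T0, v' ≠ v → v' ∈ G) → (G \ T1).card = (G \ T0).card := by
    intro v hv G n1 n2 i0 i1
    have a1 : G \ T1 = (G \ (T0 ∪ T1)) ∪ (T0 \ T1).erase (m v) := by
      ext a
      simp only [mem_sdiff, mem_union, mem_erase, not_or]
      constructor
      · rintro ⟨b1, b2⟩
        by_cases b3 : a ∈ T0
        · exact Or.inr ⟨fun h => n1 (h ▸ b1), b3, b2⟩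
        · exact Or.inl ⟨b1, b3, b2⟩
      · rintro (b | b)
        · exact ⟨b.1, b.2.2⟩
        · exact ⟨i0 a (mem_sdiff.2 b.2) b.1, b.2.2⟩
    have a2 : G \ T0 = (G \ (T0 ∪ T1)) ∪ (T1 \ T0).erase v := by
      ext a
      simp only [mem_sdiff, mem_union, mem_erase, not_or]
      constructor
      · rintro ⟨b1, b2⟩
        by_cases b3 : a ∈ T1
        · exact Or.inr ⟨fun h => n2 (h ▸ b1), b3, b2⟩
        · exact Or.inl ⟨b1, b2, b3⟩
      · rintro (b | b)
        · exact ⟨b.1, b.2.1⟩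
        · exact ⟨i1 a (mem_sdiff.2 b.2) b.1, b.2.2⟩
    have d1 : Disjoint (G \ (T0 ∪ T1)) ((T0 \ T1).erase (m v)) := by
      rw [disjoint_left]
      intro a ha ha'
      exact (mem_sdiff.1 ha).2 (mem_union_left _ (mem_sdiff.1 (mem_erase.1 ha').2).1)
    have d2 : Disjoint (G \ (T0 ∪ T1)) ((T1 \ T0).erase v) := by
      rw [disjoint_left]
      intro a ha ha'
      exact (mem_sdiff.1 ha).2 (mem_union_right _ (mem_sdiff.1 (mem_erase.1 ha').2).1)
    rw [a1, a2, card_union_of_disjoint d1, card_union_of_disjoint d2, card_erase_of_mem (hm v hv).1,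
      card_erase_of_mem hv, cXY]
  have t1 : ∀ v ∈ T1 \ T0, sg r T1 (H v) = 0 := by
    intro v hv
    have b1 := cnt v hv (H v) (n1 v hv) (hH v).nin (in0 v hv) (in1 v hv)
    have b2 := (hH v).ti
    unfold sg at b2 ⊢
    rw [b1]
    exact b2
  -- `T1`-tight sets which contain `y` contain `m y`
  have ex1 : ∀ v ∈ T1 \ T0, ∀ G ⊆ E, sg r T1 G = 0 → v ∈ G → m v ∈ G := by
    intro v hv
    have hv' := mem_sdiff.1 hv
    have hmv := (hm v hv).1
    have hmv' := mem_sdiff.1 hmv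
    have p1 := B2.par hu hmv hv (fun x hx hne h => hne ((hmu v hv x hx).1 h))
    have p2 := B2.swap hu hmv hv p1
    exact (ud_exch hE h1 hv'.1 (h0.1 hmv'.1) hmv'.2).1 p2
  refine ⟨m, c, H, ⟨fun v hv => (hm v hv).1, fun v hv => (hc v hv).1, ?_, ?_, fun v _ => (hH v).sub,
    fun v _ => (hH v).ti, t1, fun v _ => (hH v).nin, n1, fun v _ => (hH v).max, ?_, ?_, ?_, hcu, ?_, ?_⟩⟩
  · intro a ha b hb hab
    exact hmi a ha b hb hab
  · intro a ha b hb hab
    exact hci a ha b hb hab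
  · intro v hv G hG h3 h4
    have hn1 := sg_nonneg hr h1.2.2
    have s1 := sg_sub hr T1 G (H v)
    rw [h3, t1 v hv] at s1
    have s2 := hn1 (G ∪ H v) (union_subset hG (hH v).sub)
    have s3 := hn1 (G ∩ H v) (inter_subset_left.trans hG)
    have s4 : sg r T1 (G ∪ H v) = 0 := by omega
    have hvG : v ∉ G := fun h => h4 (ex1 v hv G hG h3 h)
    have b1 := cnt v hv (G ∪ H v) (by
      rw [mem_union]
      rintro (h | h)
      · exact h4 h
      · exact n1 v hv h) (by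
      rw [mem_union]
      rintro (h | h)
      · exact hvG h
      · exact (hH v).nin h) (fun u hu hne => mem_union_right _ (in0 v hv u hu hne))
      (fun v' hv' hne => mem_union_right _ (in1 v hv v' hv' hne))
    have s5 : sg r T0 (G ∪ H v) = 0 := by
      unfold sg at s4 ⊢
      rw [← b1]
      exact s4
    have s6 := (hH v).max (G ∪ H v) (union_subset hG (hH v).sub) s5 (by
      rw [mem_union]
      rintro (h | h)
      · exact hvG h
      · exact (hH v).nin h)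
    exact subset_union_left.trans s6
  · intro v hv u hu
    exact in0 v hv u (mem_erase.1 hu).2 (mem_erase.1 hu).1
  · intro v hv v' hv'
    exact in1 v hv v' (mem_erase.1 hv').2 (mem_erase.1 hv').1
  · intro v hv u hu
    have hcv := (hc v hv).1
    constructor
    · intro h
      -- `u` is matched to some `w`
      by_contra hne
      -- find the partner of `u`
      obtain ⟨w, hw, hw2⟩ := B1.out2 hr hu
      have e3 := (hcu w hw u hu).1 hw2
      have hwv : w ≠ v := by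
        rintro rfl
        exact hne e3
      have p1 := B1.par hr hu hw (fun x hx hxne h' => hxne (((hcu w hw x hx).1 h').trans e3.symm))
      exact B1.swap_ne hr hu hv hw hwv p1 h
    · rintro rfl
      have p1 := B1.par hr hcv hv (fun x hx hne h => hne ((hcu v hv x hx).1 h))
      exact B1.swap hr hcv hv p1
  · intro h2 v hv h3
    have h4 := (hm v hv).2
    rw [← h3] at h4
    exact u3 h2 v hv (c v) (hc v hv).1 (hc v hv).2 h4

end Pool.Agent.EX65
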