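import Pool.Agent.CF98.Rk0

/-!
Shortest exchange cycles for two matroids (MP_e6151a_ag).

* `uniq_match`: if `x i ∈ B`, `B - x i + y i` is a basis for all `i < m` and `B - x i + y j` is not a basis for `i < j < m`, then
  `B - {x i} + {y i}` is a basis.
* `Cl r₁ r₂ T X Y f m x y`: a closed walk `y 0 → x 0 → y 1 → ...` of period `m` in the exchange digraph of the common basis `T`.
* `cl_exists`: there is a closed walk.  `cl_short`: shortcuts.
* `exact_cyc`: two different common bases with no common basis in between: the exchange digraph is a single cycle.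
-/

set_option autoImplicit false

namespace Pool.Agent.EX65

open Finset Pool.Agent.DT3 Pool.Agent.CF98

variable {α : Type*} [DecidableEq α] {r r₁ r₂ : Finset α → ℕ} {B T T₀ T₁ X Y : Finset α} {f m : ℕ}
  {x y : ℕ → α}

/-- Unique matchings. -/
theorem uniq_match (h : RankFn r) (hB : r B = B.card) (hx : ∀ i < m, x i ∈ B)
    (hinj : ∀ i < m, ∀ j < m, x i = x j → i = j)
    (hsp : ∀ i < m, r (insert (y i) B) = r B)
    (hin : ∀ i < m, r (insert (y i) (B.erase (x i))) = r B)
    (hout : ∀ i j, i < j → j < m → r (insert (y j) (B.erase (x i))) ≠ r B) :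
    r ((B \ (range m).image x) ∪ (range m).image y) = r B := by
  classical
  -- ranks of subsets of `B`
  have hsub : ∀ S ⊆ B, r S = S.card := fun S hS => ind_sub h hB hS
  have hcard : ∀ j ≤ m, (B \ (range j).image x).card + j = B.card := by
    intro j hj
    have h1 : (range j).image x ⊆ B := by
      intro a ha
      obtain ⟨i, hi, rfl⟩ := mem_image.1 ha
      exact hx i (lt_of_lt_of_le (mem_range.1 hi) hj)
    have h2 : ((range j).image x).card = j := by
      rw [card_image_of_injOn, card_range]
      intro a ha b hb hab
      exact hinj a (lt_of_lt_of_le (mem_range.1 ha) hj) b (lt_of_lt_of_le (mem_range.1 hb) hj) hab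
    have h3 := card_sdiff_add_card_eq_card h1
    omega
  -- `y j` is in the closure of `B \ {x i | i < j}`
  have hclo : ∀ j < m, ∀ i ≤ j, r (insert (y j) (B \ (range i).image x)) = r (B \ (range i).image x) := by
    intro j hj i
    induction i with
    | zero =>
      intro _
      rw [range_zero, image_empty, sdiff_empty]
      exact hsp j hj
    | succ i ih =>
      intro hij
      have ih' := ih (by omega)
      have hi : i < m := by omega
      have e : B \ (range (i + 1)).image x = (B \ (range i).image x).erase (x i) := by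
        rw [range_add_one, image_insert]
        ext a
        simp only [mem_sdiff, mem_insert, mem_erase, not_or]
        tauto
      -- `x i` is a coloop of `B + y j`
      have c1 : r (insert (y j) (B.erase (x i))) = r (B.erase (x i)) := by
        have h1 := hout i j (by omega) hj
        have h2 := h.insert_le (y j) (B.erase (x i))
        have h3 := h.mono (B.erase (x i)) (insert (y j) (B.erase (x i))) (subset_insert _ _)
        have h4 := hsub (B.erase (x i)) (erase_subset _ _)
        have h5 := card_erase_of_mem (hx i hi)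
        have h6 : 0 < B.card := card_pos.2 ⟨x i, hx i hi⟩
        omega
      rw [e]
      -- submodularity
      have s1 := h.submod (insert (y j) (B \ (range i).image x)) (insert (y j) (B.erase (x i)))
      have hxi : x i ∈ B \ (range i).image x := by
        rw [mem_sdiff]
        refine ⟨hx i hi, fun hmem => ?_⟩
        obtain ⟨l, hl, hl'⟩ := mem_image.1 hmem
        have := hinj l (by have := mem_range.1 hl; omega) i hi hl'
        have := mem_range.1 hl
        omega
      have e1 : insert (y j) (B \ (range i).image x) ∪ insert (y j) (B.erase (x i)) = insert (y j) B := by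
        ext a
        simp only [mem_union, mem_insert, mem_sdiff, mem_erase]
        constructor
        · rintro ((h1 | h1) | (h1 | h1))
          · exact Or.inl h1
          · exact Or.inr h1.1
          · exact Or.inl h1
          · exact Or.inr h1.2
        · rintro (h1 | h1)
          · exact Or.inl (Or.inl h1)
          · by_cases h2 : a = x i
            · subst h2
              exact Or.inl (Or.inr (mem_sdiff.1 hxi))
            · exact Or.inr (Or.inr ⟨h2, h1⟩)
      have e2 : insert (y j) ((B \ (range i).image x).erase (x i)) ⊆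
          insert (y j) (B \ (range i).image x) ∩ insert (y j) (B.erase (x i)) := by
        intro a ha
        simp only [mem_inter, mem_insert, mem_sdiff, mem_erase] at ha ⊢
        rcases ha with h1 | h1
        · exact ⟨Or.inl h1, Or.inl h1⟩
        · exact ⟨Or.inr h1.2, Or.inr ⟨h1.1, h1.2.1⟩⟩
      rw [e1] at s1
      have s2 := h.mono _ _ e2
      have s3 := h.mono _ _ (subset_insert (y j) ((B \ (range i).image x).erase (x i)))
      have s4 := hsub ((B \ (range i).image x).erase (x i)) ((erase_subset _ _).trans sdiff_subset)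
      have s5 := card_erase_of_mem hxi
      have s6 := hsub (B \ (range i).image x) sdiff_subset
      have s7 : 0 < (B \ (range i).image x).card := card_pos.2 ⟨x i, hxi⟩
      have s8 := hsub (B.erase (x i)) (erase_subset _ _)
      have s9 := card_erase_of_mem (hx i hi)
      have s10 : 0 < B.card := card_pos.2 ⟨x i, hx i hi⟩
      have s11 := hsp j hj
      omega
  -- the main induction
  have key : ∀ t ≤ m, ∀ j, j + t = m →
      r ((B \ (range m).image x) ∪ (Ico j m).image y) = r (B \ (range j).image x) ∧
      r ((B \ (range j).image x) ∪ (Ico j m).image y) = r (B \ (range j).image x) := by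
    intro t
    induction t with
    | zero =>
      intro _ j hj
      have hjm : j = m := by omega
      subst hjm
      rw [Ico_self, image_empty, union_empty]
      exact ⟨rfl, rfl⟩
    | succ t ih =>
      intro ht j hj
      obtain ⟨i1, i2⟩ := ih (by omega) (j + 1) (by omega)
      have hjm : j < m := by omega
      have eI : (Ico j m).image y = insert (y j) ((Ico (j + 1) m).image y) := by
        rw [← image_insert]
        congr 1
        ext a
        simp only [mem_Ico, mem_insert]
        omega
      have e : B \ (range (j + 1)).image x = (B \ (range j).image x).erase (x j) := by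
        rw [range_add_one, image_insert]
        ext a
        simp only [mem_sdiff, mem_insert, mem_erase, not_or]
        tauto
      have hxj : x j ∈ B \ (range j).image x := by
        rw [mem_sdiff]
        refine ⟨hx j hjm, fun hmem => ?_⟩
        obtain ⟨l, hl, hl'⟩ := mem_image.1 hmem
        have := hinj l (by have := mem_range.1 hl; omega) j hjm hl'
        have := mem_range.1 hl
        omega
      have c1 := hcard j (by omega)
      have c2 := hcard (j + 1) (by omega)
      have d1 := hsub (B \ (range j).image x) sdiff_subset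
      have d2 := hsub (B \ (range (j + 1)).image x) sdiff_subset
      -- second equality
      have u2 : r ((B \ (range j).image x) ∪ (Ico j m).image y) = r (B \ (range j).image x) := by
        have e3 : (B \ (range j).image x) ∪ (Ico j m).image y =
            insert (y j) (insert (x j) ((B \ (range (j + 1)).image x) ∪ (Ico (j + 1) m).image y)) := by
          rw [eI, e]
          ext a
          simp only [mem_union, mem_insert, mem_erase, mem_sdiff]
          constructor
          · rintro (h1 | h1 | h1)
            · by_cases h2 : a = x j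
              · exact Or.inr (Or.inl h2)
              · exact Or.inr (Or.inr (Or.inl ⟨h2, h1⟩))
            · exact Or.inl h1
            · exact Or.inr (Or.inr (Or.inr h1))
          · rintro (h1 | h1 | h1 | h1)
            · exact Or.inr (Or.inl h1)
            · subst h1
              exact Or.inl (mem_sdiff.1 hxj)
            · exact Or.inl h1.2
            · exact Or.inr (Or.inr h1)
        have e4 : B \ (range j).image x ⊆
            insert (x j) ((B \ (range (j + 1)).image x) ∪ (Ico (j + 1) m).image y) := by
          rw [e]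
          intro a ha
          by_cases h2 : a = x j
          · exact mem_insert.2 (Or.inl h2)
          · exact mem_insert.2 (Or.inr (mem_union_left _ (mem_erase.2 ⟨h2, ha⟩)))
        have g1 := h.mono_insert (hclo j hjm j le_rfl) e4
        have g2 := h.insert_le (x j) ((B \ (range (j + 1)).image x) ∪ (Ico (j + 1) m).image y)
        have g3 := h.mono _ _ e4
        rw [e3, g1]
        omega
      refine ⟨?_, u2⟩
      -- first equality
      have g1 : (B \ (range m).image x) ∪ (Ico j m).image y =
          insert (y j) ((B \ (range m).image x) ∪ (Ico (j + 1) m).image y) := by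
        rw [eI, union_insert]
      have g2 := h.mono ((B \ (range m).image x) ∪ (Ico j m).image y)
        ((B \ (range j).image x) ∪ (Ico j m).image y) (union_subset_union (sdiff_subset_sdiff (Subset.refl _)
          (image_subset_image (range_subset_range.2 (by omega)))) (Subset.refl _))
      rcases h.insert_eq (y j) ((B \ (range m).image x) ∪ (Ico (j + 1) m).image y) with g3 | g3
      · exfalso
        have g4 : (B \ (range m).image x) ∪ (Ico (j + 1) m).image y ⊆
            (B \ (range (j + 1)).image x) ∪ (Ico (j + 1) m).image y :=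
          union_subset_union (sdiff_subset_sdiff (Subset.refl _)
            (image_subset_image (range_subset_range.2 (by omega)))) (Subset.refl _)
        have g5 := h.mono_insert g3 g4
        have g6 := (rk_ins_iff h (subset_union_left (s₁ := B \ (range (j + 1)).image x)
          (s₂ := (Ico (j + 1) m).image y)) i2.symm (y j)).2 g5
        have g7 : B \ (range (j + 1)).image x ⊆ B.erase (x j) := by
          rw [e]
          exact erase_subset_erase _ sdiff_subset
        have g8 := h.mono_insert g6 g7
        have g9 := hin j hjm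
        have g10 := hsub (B.erase (x j)) (erase_subset _ _)
        have g11 := card_erase_of_mem (hx j hjm)
        have g12 : 0 < B.card := card_pos.2 ⟨x j, hx j hjm⟩
        omega
      · rw [g1, g3, i1]
        omega
  have fin := (key m le_rfl 0 (by omega)).1
  rw [range_zero, image_empty, sdiff_empty, ← range_eq_Ico] at fin
  exact fin

/-- Walks in the exchange digraph of the common basis `T`. -/
structure SQ (r₁ r₂ : Finset α → ℕ) (T X Y : Finset α) (f : ℕ) (x y : ℕ → α) : Prop where
  mx : ∀ i, x i ∈ X
  my : ∀ i, y i ∈ Y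
  a1 : ∀ i, r₁ (insert (y i) (T.erase (x i))) = f
  a2 : ∀ i, r₂ (insert (y (i + 1)) (T.erase (x i))) = f

/-- Closed walks of period `m`. -/
structure CW (r₁ r₂ : Finset α → ℕ) (T X Y : Finset α) (f m : ℕ) (x y : ℕ → α) : Prop
    extends SQ r₁ r₂ T X Y f x y where
  pos : 1 ≤ m
  px : ∀ i, x (i + m) = x i
  py : ∀ i, y (i + m) = y i

theorem mod_succ {t L : ℕ} (hL : 1 ≤ L) :
    (t % L = L - 1 ∧ (t + 1) % L = 0) ∨ (t % L + 1 < L ∧ (t + 1) % L = t % L + 1) := by
  have h1 := Nat.div_add_mod t L
  have h2 := Nat.mod_lt t hL
  by_cases h3 : t % L = L - 1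
  · left
    refine ⟨h3, ?_⟩
    have h4 : t + 1 = L * (t / L + 1) := by
      rw [mul_add, mul_one]
      omega
    rw [h4, Nat.mul_mod_right]
  · right
    refine ⟨by omega, ?_⟩
    have h4 : t + 1 = L * (t / L) + (t % L + 1) := by omega
    have h5 : (L * (t / L) + (t % L + 1)) % L = (t % L + 1) % L := Nat.mul_add_mod _ _ _
    rw [h4, h5, Nat.mod_eq_of_lt (by omega : t % L + 1 < L)]

/-- Shortcuts. -/
theorem SQ.cut (h : SQ r₁ r₂ T X Y f x y) {s L : ℕ} (hL : 1 ≤ L) {z : α} (hz : z ∈ X)
    (h1 : r₁ (insert (y (s + (L - 1))) (T.erase z)) = f) (h2 : r₂ (insert (y s) (T.erase z)) = f) :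
    ∃ x' y', CW r₁ r₂ T X Y f L x' y' := by
  refine ⟨fun t => if t % L = L - 1 then z else x (s + t % L), fun t => y (s + t % L), ⟨⟨?_, ?_, ?_, ?_⟩, hL, ?_, ?_⟩⟩
  · intro t
    show (if t % L = L - 1 then z else x (s + t % L)) ∈ X
    split_ifs
    · exact hz
    · exact h.mx _
  · intro t
    exact h.my _
  · intro t
    show r₁ (insert (y (s + t % L)) (T.erase (if t % L = L - 1 then z else x (s + t % L)))) = f
    split_ifs with h3
    · rw [h3]
      exact h1
    · exact h.a1 _
  · intro t
    show r₂ (insert (y (s + (t + 1) % L)) (T.erase (if t % L = L - 1 then z else x (s + t % L)))) = f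
    rcases mod_succ (t := t) hL with ⟨h3, h4⟩ | ⟨h3, h4⟩
    · rw [if_pos h3, h4, add_zero]
      exact h2
    · rw [if_neg (by omega), h4, ← add_assoc]
      exact h.a2 _
  · intro t
    show (if (t + L) % L = L - 1 then z else x (s + (t + L) % L)) = (if t % L = L - 1 then z else x (s + t % L))
    rw [Nat.add_mod_right]
  · intro t
    show y (s + (t + L) % L) = y (s + t % L)
    rw [Nat.add_mod_right]

theorem cw_exists (h1 : ∀ y ∈ Y, ∃ x ∈ X, r₁ (insert y (T.erase x)) = f)
    (h2 : ∀ x ∈ X, ∃ y ∈ Y, r₂ (insert y (T.erase x)) = f) (hne : Y.Nonempty) :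
    ∃ m x y, CW r₁ r₂ T X Y f m x y := by
  classical
  obtain ⟨y₀, hy₀⟩ := hne
  choose φ hφ1 hφ2 using h1
  choose ψ hψ1 hψ2 using h2
  let stp : {y // y ∈ Y} → {y // y ∈ Y} := fun y => ⟨ψ (φ y.1 y.2) (hφ1 _ _), hψ1 _ _⟩
  let z : ℕ → {y // y ∈ Y} := fun n => stp^[n] ⟨y₀, hy₀⟩
  have hz : ∀ n, z (n + 1) = stp (z n) := fun n => Function.iterate_succ_apply' stp n _
  have hS : SQ r₁ r₂ T X Y f (fun n => φ (z n).1 (z n).2) (fun n => (z n).1) := by
    refine ⟨fun n => hφ1 _ _, fun n => (z n).2, fun n => hφ2 _ _, fun n => ?_⟩
    show r₂ (insert (z (n + 1)).1 (T.erase (φ (z n).1 (z n).2))) = f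
    rw [hz]
    exact hψ2 _ _
  obtain ⟨i, j, hij, he⟩ := Finite.exists_ne_map_eq_of_infinite z
  have key : ∀ i j : ℕ, i < j → z i = z j → ∃ m x y, CW r₁ r₂ T X Y f m x y := by
    intro i j hlt he
    have e1 : i + (j - i - 1) = j - 1 := by omega
    have h3 := hS.a1 (j - 1)
    have h4 := hS.a2 (j - 1)
    have e2 : j - 1 + 1 = j := by omega
    simp only [e2] at h4
    rw [← he] at h4
    refine ⟨j - i, hS.cut (s := i) (L := j - i) (by omega) (hS.mx (j - 1)) ?_ h4⟩
    rw [e1]
    exact h3
  rcases lt_or_gt_of_ne hij with h | h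
  · exact key i j h he
  · exact key j i h he.symm

/-- The exchange digraph of a common basis without intermediate common bases is a single cycle. -/
theorem exact_cyc (h₁ : RankFn r₁) (h₂ : RankFn r₂) (hT : T.card = f) (h1T : r₁ T = f) (h2T : r₂ T = f)
    (hXT : X ⊆ T) (hY1 : ∀ y ∈ Y, r₁ (insert y T) = f)
    (hY2 : ∀ y ∈ Y, r₂ (insert y T) = f) (ho1 : ∀ y ∈ Y, ∃ x ∈ X, r₁ (insert y (T.erase x)) = f)
    (ho2 : ∀ x ∈ X, ∃ y ∈ Y, r₂ (insert y (T.erase x)) = f) (hne : Y.Nonempty)
    (hno : ∀ X' ⊆ X, ∀ Y' ⊆ Y, X'.Nonempty → X'.card = Y'.card → r₁ ((T \ X') ∪ Y') = f →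
      r₂ ((T \ X') ∪ Y') = f → X' = X ∧ Y' = Y) :
    ∃ m x y, CW r₁ r₂ T X Y f m x y ∧ (∀ i < m, ∀ j < m, x i = x j → i = j) ∧
      (∀ i < m, ∀ j < m, y i = y j → i = j) ∧ (range m).image x = X ∧ (range m).image y = Y ∧
      (∀ i < m, ∀ j < m, r₁ (insert (y j) (T.erase (x i))) = f → i = j) ∧
      (∀ i < m, ∀ j < m, r₂ (insert (y j) (T.erase (x i))) = f → j = (i + 1) % m) := by
  classical
  have hex := cw_exists ho1 ho2 hne
  let m := Nat.find hex
  obtain ⟨x, y, hC⟩ : ∃ x y, CW r₁ r₂ T X Y f m x y := Nat.find_spec hex
  have hmin : ∀ L < m, ¬ ∃ x y, CW r₁ r₂ T X Y f L x y := fun L hL => Nat.find_min hex hL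
  have hm := hC.pos
  have I1 : ∀ i j, i < j → j - i < m → y i ≠ y j := by
    intro i j hij hlt he
    apply hmin _ hlt
    have h4 := hC.a2 (j - 1)
    rw [show j - 1 + 1 = j by omega, ← he] at h4
    refine hC.cut (s := i) (L := j - i) (by omega) (hC.mx (j - 1)) ?_ h4
    rw [show i + (j - i - 1) = j - 1 by omega]
    exact hC.a1 _
  have I2 : ∀ i j, i < j → j - i < m → x i ≠ x j := by
    intro i j hij hlt he
    apply hmin _ hlt
    refine hC.cut (s := i + 1) (L := j - i) (by omega) (hC.mx j) ?_ ?_
    · rw [show i + 1 + (j - i - 1) = j by omega]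
      exact hC.a1 _
    · rw [← he]
      exact hC.a2 _
  have I3 : ∀ i j, i < j → j - i < m → r₁ (insert (y j) (T.erase (x i))) ≠ f := by
    intro i j hij hlt he
    apply hmin _ hlt
    refine hC.cut (s := i + 1) (L := j - i) (by omega) (hC.mx i) ?_ (hC.a2 i)
    rw [show i + 1 + (j - i - 1) = j by omega]
    exact he
  have I4 : ∀ i j, j ≤ i → i - j + 1 < m → r₂ (insert (y j) (T.erase (x i))) ≠ f := by
    intro i j hij hlt he
    apply hmin _ hlt
    refine hC.cut (s := j) (L := i - j + 1) (by omega) (hC.mx i) ?_ he
    rw [show j + (i - j + 1 - 1) = i by omega]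
    exact hC.a1 _
  have J2 : ∀ i < m, ∀ j < m, x i = x j → i = j := by
    intro i hi j hj he
    rcases lt_trichotomy i j with h | h | h
    · exact absurd he (I2 i j h (by omega))
    · exact h
    · exact absurd he.symm (I2 j i h (by omega))
  have J1 : ∀ i < m, ∀ j < m, y i = y j → i = j := by
    intro i hi j hj he
    rcases lt_trichotomy i j with h | h | h
    · exact absurd he (I1 i j h (by omega))
    · exact h
    · exact absurd he.symm (I1 j i h (by omega))
  have J3 : ∀ i < m, ∀ j < m, r₁ (insert (y j) (T.erase (x i))) = f → i = j := by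
    intro i hi j hj he
    rcases lt_trichotomy i j with h | h | h
    · exact absurd he (I3 i j h (by omega))
    · exact h
    · rw [← hC.py j] at he
      exact absurd he (I3 i (j + m) (by omega) (by omega))
  have J4 : ∀ i < m, ∀ j < m, r₂ (insert (y j) (T.erase (x i))) = f → j = (i + 1) % m := by
    intro i hi j hj he
    rcases Nat.lt_or_ge i j with h | h
    · -- `i < j`
      by_cases h3 : j = i + 1
      · rw [← h3, Nat.mod_eq_of_lt hj]
      · exfalso
        rw [← hC.px i] at he
        exact I4 (i + m) j (by omega) (by omega) he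
    · by_cases h3 : i - j + 1 < m
      · exact absurd he (I4 i j h h3)
      · have h4 : i + 1 = m := by omega
        have h5 : j = 0 := by omega
        rw [h4, Nat.mod_self, h5]
  -- the new common basis
  set X' := (range m).image x with hX'
  set Y' := (range m).image y with hY'
  have hX'X : X' ⊆ X := by
    intro a ha
    obtain ⟨i, _, rfl⟩ := mem_image.1 ha
    exact hC.mx i
  have hY'Y : Y' ⊆ Y := by
    intro a ha
    obtain ⟨i, _, rfl⟩ := mem_image.1 ha
    exact hC.my i
  have cX : X'.card = m := by
    rw [hX', card_image_of_injOn, card_range]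
    intro a ha b hb hab
    exact J2 a (mem_range.1 ha) b (mem_range.1 hb) hab
  have cY : Y'.card = m := by
    rw [hY', card_image_of_injOn, card_range]
    intro a ha b hb hab
    exact J1 a (mem_range.1 ha) b (mem_range.1 hb) hab
  have R1 : r₁ ((T \ X') ∪ Y') = f := by
    have h3 := uniq_match h₁ (B := T) (m := m) (x := x) (y := y) (by rw [h1T, hT])
      (fun i _ => hXT (hC.mx i)) J2 (fun i _ => by rw [hY1 _ (hC.my i), h1T])
      (fun i _ => by rw [hC.a1, h1T]) (fun i j hij hj he => I3 i j hij (by omega) (by rw [he, h1T]))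
    rw [h3, h1T]
  have R2 : r₂ ((T \ X') ∪ Y') = f := by
    have h3 := uniq_match h₂ (B := T) (m := m) (x := x) (y := fun i => y (i + 1)) (by rw [h2T, hT])
      (fun i _ => hXT (hC.mx i)) J2 (fun i _ => by rw [hY2 _ (hC.my _), h2T])
      (fun i _ => by rw [hC.a2, h2T]) (fun i j hij hj he => by
        have h5 : r₂ (insert (y (j + 1)) (T.erase (x (i + m)))) = f := by
          rw [hC.px i]
          exact he.trans h2T
        exact I4 (i + m) (j + 1) (by omega) (by omega) h5)
    have h4 : (range m).image (fun i => y (i + 1)) = Y' := by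
      ext a
      rw [hY', mem_image, mem_image]
      constructor
      · rintro ⟨i, hi, rfl⟩
        have hi' := mem_range.1 hi
        by_cases h5 : i + 1 < m
        · exact ⟨i + 1, mem_range.2 h5, rfl⟩
        · refine ⟨0, mem_range.2 (by omega), ?_⟩
          have h6 := hC.py 0
          rw [show 0 + m = i + 1 by omega] at h6
          exact h6.symm
      · rintro ⟨i, hi, rfl⟩
        have hi' := mem_range.1 hi
        by_cases h5 : i = 0
        · refine ⟨m - 1, mem_range.2 (by omega), ?_⟩
          have h6 := hC.py 0
          rw [h5, ← h6]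
          show y (m - 1 + 1) = y (0 + m)
          congr 1
          omega
        · refine ⟨i - 1, mem_range.2 (by omega), ?_⟩
          show y (i - 1 + 1) = y i
          congr 1
          omega
    rw [h4] at h3
    rw [h3, h2T]
  obtain ⟨e1, e2⟩ := hno X' hX'X Y' hY'Y (card_pos.1 (by omega)) (by rw [cX, cY]) R1 R2
  exact ⟨m, x, y, hC, J2, J1, e1, e2, J3, J4⟩

end Pool.Agent.EX65
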